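import Pool.Agent.Helper69.WLU.Main

set_option autoImplicit false

open Set Topology Metric

universe u v w

namespace Pool.Agent.Results.MP_d939a7_an.CorsonDualBall

/-- The closed unit ball of the dual with the weak star topology. -/
abbrev DualBall (X : Type u) [NormedAddCommGroup X] [NormedSpace ℝ X] : Type u :=
  {f : WeakDual ℝ X // ‖WeakDual.toStrongDual f‖ ≤ 1}

/-- `X` is weakly Lindelöf determined: the dual ball with the weak star topology is Corson compact,
that is homeomorphic to a subset of the Sigma-product `Σ(Γ)` (families of real numbers indexed by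
`Γ` with countable support, product topology) for some set `Γ`. -/
def IsWLD (X : Type u) [NormedAddCommGroup X] [NormedSpace ℝ X] : Prop :=
  ∃ (Γ : Type w) (e : DualBall X → Γ → ℝ), IsEmbedding e ∧ ∀ f, {γ | e f γ ≠ 0}.Countable

/-- `Y` is Asplund: every separable subspace has a separable dual. -/
def IsAsplund (Y : Type v) [NormedAddCommGroup Y] [NormedSpace ℝ Y] : Prop :=
  ∀ S : Submodule ℝ Y, TopologicalSpace.IsSeparable (S : Set Y) →
    TopologicalSpace.SeparableSpace (S →L[ℝ] ℝ)

/-- Let `X` be a weakly Lindelöf determined Banach space and `T : Y → X` a bounded operator with dense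
range from an Asplund space `Y`.  Then some weakly compact subset `K` of the closure of `T(B_Y)` has
closed linear span `X`; in particular `X` is weakly compactly generated.  No restriction on the
density. -/
theorem result (X : Type u) [NormedAddCommGroup X] [NormedSpace ℝ X] [CompleteSpace X]
    (Y : Type v) [NormedAddCommGroup Y] [NormedSpace ℝ Y] (hY : IsAsplund Y)
    (T : Y →L[ℝ] X) (hT : DenseRange T) (hX : IsWLD.{u, w} X) :
    ∃ K ⊆ closure (T '' closedBall (0 : Y) 1), IsCompact (toWeakSpace ℝ X '' K) ∧
      (Submodule.span ℝ K).topologicalClosure = ⊤ := by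
  classical
  obtain ⟨Γ, e, he, hc⟩ := hX
  let c : Pool.Agent.Helper69.WLU.CorsonData.{u, w} X :=
    { Δ := Γ
      h := fun f γ => if hf : ‖f‖ ≤ 1 then e ⟨StrongDual.toWeakDual f, hf⟩ γ else 0
      cnt := by
        intro f hf
        refine (hc ⟨StrongDual.toWeakDual f, hf⟩).mono ?_
        intro γ hγ
        have h1 : (if hf : ‖f‖ ≤ 1 then e ⟨StrongDual.toWeakDual f, hf⟩ γ else 0) ≠ 0 := hγ
        rw [dif_pos hf] at h1
        exact h1
      inj := by
        intro f g hf hg h
        have h1 : e ⟨StrongDual.toWeakDual f, hf⟩ = e ⟨StrongDual.toWeakDual g, hg⟩ := by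
          funext γ
          have h2 := h γ
          rw [dif_pos hf, dif_pos hg] at h2
          exact h2
        have h3 := congrArg Subtype.val (he.injective h1)
        exact StrongDual.toWeakDual.injective h3
      cont := by
        intro γ
        rw [continuousOn_iff_continuous_restrict]
        let i : ((WeakDual.toStrongDual ⁻¹' closedBall (0 : StrongDual ℝ X) 1 :
            Set (WeakDual ℝ X))) → DualBall X := fun f => ⟨f.1, mem_closedBall_zero_iff.1 f.2⟩
        have hi : Continuous i := continuous_subtype_val.subtype_mk _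
        have h1 : Continuous fun f => e (i f) γ := (continuous_apply γ).comp (he.continuous.comp hi)
        refine h1.congr fun f => ?_
        have hf : ‖WeakDual.toStrongDual f.1‖ ≤ 1 := mem_closedBall_zero_iff.1 f.2
        show e (i f) γ = (if hf : ‖WeakDual.toStrongDual f.1‖ ≤ 1 then
          e ⟨StrongDual.toWeakDual (WeakDual.toStrongDual f.1), hf⟩ γ else 0)
        rw [dif_pos hf]
        rfl }
  obtain ⟨K, hKA, hK1, hK2⟩ := Pool.Agent.Helper69.WLU.concl_all (Cardinal.mk (univ : Set X)) X _
    (Pool.Agent.Helper69.WLU.goodC_of_asplund hY T hT c) ⟨univ, dense_univ, le_rfl⟩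
  exact ⟨K, hKA, hK1, Submodule.dense_iff_topologicalClosure_eq_top.1 hK2⟩

end Pool.Agent.Results.MP_d939a7_an.CorsonDualBall
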